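import Pool.Agent.H87.RL.Asy
import Pool.Agent.H87.RL.Cost

/-!
# MP_9b7f10_lc: random linear systems can be solved with `O(n ^ 2 log ^ 2 (n / ε))` operations

In the exact real arithmetic model of the problem there is one program which, for each of the three
ensembles, solves `A x = b` to accuracy `ε` with at most `C n ^ 2 log ^ 2 (n / ε)` operations, for
every `b` and `ε`, and every `A` in an event of probability tending to one.

The statement only uses the definitions in `Pool/Agent/H87/RL/Machine.lean`.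
-/

namespace Pool.Agent.Results.MP_9b7f10_lc.NearlyQuadratic

open Pool.Agent.H87.RL Filter Topology

theorem result :
    ∃ P : Cmd, ∃ C : ℝ, ∀ X : Ensemble, ∃ E : (n : ℕ) → Set (Fin n → Fin n → ℝ),
      (∀ n, MeasurableSet (E n)) ∧ Tendsto (fun n => X.law n (E n)) atTop (𝓝 1) ∧
      ∀ n, ∀ A ∈ E n, ∀ b : Fin n → ℝ, ∀ ε : ℝ, 0 < ε → ε < 1 →
        (∃ t : ℕ, P.cost (input A b ε) = t ∧ (t : ℝ) ≤ C * n ^ 2 * Real.log (n / ε) ^ 2) ∧
        √(∑ i, ((∑ j : Fin n, A i j * (P.run (input A b ε)).a aOut j 0) - b i) ^ 2) ≤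
          ε * √(∑ i, b i ^ 2) := by
  refine ⟨algorithm, costC, fun X => ⟨fun n => if 3 ≤ n then good n else ∅, ?_, ?_, ?_⟩⟩
  · intro n
    change MeasurableSet (if 3 ≤ n then good n else ∅)
    split_ifs
    · exact (isClosed_good n).measurableSet
    · exact MeasurableSet.empty
  · refine (tendsto_good X).congr' ?_
    filter_upwards [eventually_ge_atTop 3] with n hn
    rw [if_pos hn]
  · intro n A hA b ε hε hε1
    change A ∈ (if 3 ≤ n then good n else ∅) at hA
    by_cases hn : 3 ≤ n
    · rw [if_pos hn] at hA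
      obtain ⟨t, h1, h2, h3⟩ := solves hn A b ε hA.1 hA.2 hε hε1
      refine ⟨⟨t, h1, h2⟩, ?_⟩
      rw [nrm_eq, nrm_eq] at h3
      exact h3
    · rw [if_neg hn] at hA
      exact hA.elim

end Pool.Agent.Results.MP_9b7f10_lc.NearlyQuadratic
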